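import Pool.Agent.N528.Torus.Main

/-! A disproof of the perturbation question for isometrically embedded tori (MP_665542_gt): for the
metric of any standard torus of revolution, there are smooth metrics arbitrarily close to it, in the
`C^0` norm and even together with any number of derivatives, which have no isometric immersion of
class `C^2` in Euclidean 3-space. -/

set_option autoImplicit false

open scoped ContDiff

namespace Pool.Agent.Results.MP_665542_gt.TightTorus

open Pool.Agent.N528.Torus

theorem result (R r : ℝ) (hr : 0 < r) (hR : r < R) :
    IsSmoothMetric (torusMetric R r) ∧ IsIsometricEmbedding ∞ (torusMetric R r) (torusMap R r) ∧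
    ∀ ε : ℝ, 0 < ε → ∀ k : ℕ, ∃ g : Plane → Matrix (Fin 2) (Fin 2) ℝ,
      IsSmoothMetric g ∧ C0Close ε (torusMetric R r) g ∧ CkClose k ε (torusMetric R r) g ∧
      ∀ f : Plane → Space, ¬ IsIsometricImmersion 2 g f :=
  main R r hr hR

end Pool.Agent.Results.MP_665542_gt.TightTorus
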